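import Pool.Agent.Q5.SH.Stm
import Pool.Agent.Q299.EX.Cnt

/-!
# Project SH, job NEW: adding primes to `T`

Proof by helper248.
-/

set_option autoImplicit false
set_option linter.unusedSectionVars false

namespace Pool.Agent.Q248.SH

open NumberField IsDedekindDomain Module Pool.Agent.Y18.LC Pool.Agent.Q5.SG Pool.Agent.Q5.SH
open Pool.Agent.Q92.AR (Dv prin Pr Ray RayD art nmD nu Cong Pos frob IsFrobenius Unramified SupF
  prin_mul prin_one prin_inv prin_div prinHom)

section
variable {K : Type} [Field K] [NumberField K]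

/-- approximation at a finite set of primes -/
theorem apx (P : Finset (HeightOneSpectrum (𝓞 K))) (y : HeightOneSpectrum (𝓞 K) → Kˣ) :
    ∃ z : Kˣ, ∀ v ∈ P, z / y v ∈ OneAt v := by
  obtain ⟨z, hz⟩ := Pool.Agent.Q299.EX.approx (P := (P : Set (HeightOneSpectrum (𝓞 K))))
    P.finite_toSet y (fun _ => 1) (fun _ => le_rfl)
  refine ⟨z, fun v hv => ?_⟩
  rw [mem_OneAt, Units.val_div_eq_div_val]
  refine lt_of_le_of_lt (hz v hv) ?_
  rw [← WithZero.exp_zero, WithZero.exp_lt_exp]
  norm_num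

/-- an element near `a` at `v` and near `1` at the other primes of `P` -/
theorem apx1 (P : Finset (HeightOneSpectrum (𝓞 K))) (v : HeightOneSpectrum (𝓞 K)) (a : Kˣ) :
    ∃ z : Kˣ, z / a ∈ OneAt v ∧ ∀ w ∈ P, w ≠ v → z ∈ OneAt w := by
  classical
  obtain ⟨z, hz⟩ := apx (insert v P) (fun w => if w = v then a else 1)
  refine ⟨z, ?_, fun w hw hwv => ?_⟩
  · have h1 := hz v (Finset.mem_insert_self v P)
    rwa [if_pos rfl] at h1
  · have h1 := hz w (Finset.mem_insert_of_mem hw)
    rwa [if_neg hwv, div_one] at h1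

/-- an element of given order at `v` -/
theorem exists_order (v : HeightOneSpectrum (𝓞 K)) (n : ℤ) : ∃ k : Kˣ, prin k v = n := by
  obtain ⟨π, hπ⟩ := v.valuation_exists_uniformizer K
  have hπ0 : π ≠ 0 := by
    rintro rfl
    rw [map_zero] at hπ
    exact WithZero.exp_ne_zero hπ.symm
  have h1 : prin (Units.mk0 π hπ0) v = 1 := by
    have h2 := Pool.Agent.Q128.AR.val_prin (Units.mk0 π hπ0) v
    rw [Units.val_mk0, hπ, WithZero.exp_inj] at h2
    omega
  refine ⟨Units.mk0 π hπ0 ^ n, ?_⟩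
  have h3 : prin (Units.mk0 π hπ0 ^ n) = n • prin (Units.mk0 π hπ0) :=
    (prinHom (F := K)).map_zsmul n (Additive.ofMul (Units.mk0 π hπ0))
  rw [h3, Finsupp.smul_apply, h1, smul_eq_mul, mul_one]

theorem unitAt_iff {v : HeightOneSpectrum (𝓞 K)} {x : Kˣ} : x ∈ UnitAt v ↔ prin x v = 0 := by
  rw [mem_UnitAt, Pool.Agent.Q128.AR.val_prin, ← WithZero.exp_zero, WithZero.exp_inj]
  omega

theorem unitAt_of_div {v : HeightOneSpectrum (𝓞 K)} {x y : Kˣ} (h : x / y ∈ OneAt v)
    (hy : y ∈ UnitAt v) : x ∈ UnitAt v := by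
  have h1 := (UnitAt v).mul_mem (OneAt_le v h) hy
  rwa [div_mul_cancel] at h1

theorem prin_eq_of_div {v : HeightOneSpectrum (𝓞 K)} {x y : Kˣ} (h : x / y ∈ OneAt v) :
    prin x v = prin y v := by
  have h1 := unitAt_iff.1 (OneAt_le v h)
  rw [prin_div, Finsupp.sub_apply] at h1
  omega

theorem add_eq_of_div {f : Additive Kˣ →+ Additive ℂˣ} {v : HeightOneSpectrum (𝓞 K)}
    (hf : ∀ x ∈ OneAt v, f (Additive.ofMul x) = 0) {x y : Kˣ} (h : x / y ∈ OneAt v) :
    f (Additive.ofMul x) = f (Additive.ofMul y) := by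
  have h1 := hf _ h
  rw [ofMul_div, map_sub] at h1
  exact sub_eq_zero.1 h1

end

theorem new : J_NEW := by
  intro hEXT p _ K _ _ _ S m hm T V χ hA hTV hV κ hκ hsum
  have hq : 0 < p ^ m := pow_pos (Fact.out : p.Prime).pos m
  set κs : Additive Kˣ →+ Additive ℂˣ := ∑ v ∈ V, κ v with hκs
  have hκs' : ∀ x, κs x = ∑ v ∈ V, κ v x := fun x => by
    rw [hκs, AddMonoidHom.finset_sum_apply]
  have hne : ∀ v ∈ T, ∀ w ∈ V, w ≠ v := fun v hv w hw h =>
    Finset.disjoint_left.1 hTV hv (h ▸ hw)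
  obtain ⟨χ', hX, hχ'⟩ := hEXT K (p ^ m) T V χ hq hA.isX hTV κs
    (fun x => by
      rw [hκs', ← Finset.sum_nsmul]
      exact Finset.sum_eq_zero fun v hv => (hκ v hv).1 x)
    (fun x hx => by
      rw [hκs']
      exact Finset.sum_eq_zero fun v hv => (hκ v hv).2.1 x (hx v hv))
    (fun b hb => by rw [hκs']; exact hsum b hb)
  -- elements which are `≡ 1` at all primes of `V` but one
  have hκ1 : ∀ (v : HeightOneSpectrum (𝓞 K)), v ∉ V → ∀ x : Kˣ, (∀ w ∈ V, w ≠ v → x ∈ OneAt w) →
      κs (Additive.ofMul x) = 0 := by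
    intro v hv x hx
    rw [hκs']
    exact Finset.sum_eq_zero fun w hw => (hκ w hw).2.1 x (hx w hw fun h => hv (h ▸ hw))
  have hκ2 : ∀ v ∈ V, ∀ x : Kˣ, (∀ w ∈ V, w ≠ v → x ∈ OneAt w) →
      κs (Additive.ofMul x) = κ v (Additive.ofMul x) := by
    intro v hv x hx
    rw [hκs']
    exact Finset.sum_eq_single_of_mem v hv fun w hw hwv => (hκ w hw).2.1 x (hx w hw hwv)
  refine ⟨χ', ⟨hX, ?_, ?_, ?_, ?_⟩, ?_⟩
  · -- ramification
    intro v hv
    rcases Finset.mem_union.1 hv with hvT | hvV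
    · have hvV : v ∉ V := fun h => hne v hvT v h rfl
      obtain ⟨u, hu, hu1, hu2⟩ := hA.ram v hvT
      obtain ⟨u', hu', hu'1⟩ := apx1 (T ∪ V) v u
      have h1 : χ (prin u') = χ (prin u) := by
        have h2 := hA.isX.ray (u' / u) (fun w hw => by
          by_cases hwv : w = v
          · rw [hwv]; exact hu'
          · exact (OneAt w).div_mem (hu'1 w (Finset.mem_union_left _ hw) hwv) (hu1 w hw hwv))
        rw [prin_div, map_sub] at h2
        exact sub_eq_zero.1 h2
      have h3 := hχ' u' (fun w hw => OneAt_le w (hu'1 w (Finset.mem_union_right _ hw)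
        (fun h => hvV (h ▸ hw))))
      rw [hκ1 v hvV u' (fun w hw hwv => hu'1 w (Finset.mem_union_right _ hw) hwv), add_zero, h1]
        at h3
      refine ⟨u', unitAt_of_div hu' hu, hu'1, ?_⟩
      rw [h3]
      exact hu2
    · obtain ⟨u, hu, hu2⟩ := (hκ v hvV).2.2
      obtain ⟨u', hu', hu'1⟩ := apx1 (T ∪ V) v u
      have h1 : χ (prin u') = 0 := hA.isX.ray u' (fun w hw =>
        hu'1 w (Finset.mem_union_left _ hw) (hne w hw v hvV).symm)
      have h3 := hχ' u' (fun w hw => by
        by_cases hwv : w = v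
        · rw [hwv]; exact unitAt_of_div hu' hu
        · exact OneAt_le w (hu'1 w (Finset.mem_union_right _ hw) hwv))
      rw [hκ2 v hvV u' (fun w hw hwv => hu'1 w (Finset.mem_union_right _ hw) hwv), h1, zero_add,
        add_eq_of_div (hκ v hvV).2.1 hu'] at h3
      refine ⟨u', unitAt_of_div hu' hu, hu'1, ?_⟩
      rw [h3]
      exact hu2
  · intro v hv
    rcases Finset.mem_union.1 hv with hvT | hvV
    · exact hA.norm v hvT
    · exact (hV v hvV).1
  · intro v hv
    rcases Finset.mem_union.1 hv with hvT | hvV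
    · exact hA.unr v hvT
    · exact (hV v hvV).2.1
  · intro v hv
    rcases Finset.mem_union.1 hv with hvT | hvV
    · exact hA.np v hvT
    · exact (hV v hvV).2.2
  · intro b hb
    obtain ⟨⟨hb1, hb2⟩, hb3⟩ := mem_Rg.1 hb
    have hbQ : b ∈ Qg S T (p ^ (m - 1) • χ) := by
      refine mem_Qg.2 ⟨hb1, fun v hv => ?_⟩
      have hvV : v ∉ V := fun h => hne v hv v h rfl
      obtain ⟨e, he1, he2, he3⟩ := hb2 v (Finset.mem_union_left _ hv)
      refine ⟨e, he1, fun w hw hwv => he2 w (Finset.mem_union_left _ hw) hwv, ?_⟩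
      have h3 := hχ' e (fun w hw => OneAt_le w (he2 w (Finset.mem_union_right _ hw)
        (fun h => hvV (h ▸ hw))))
      rw [hκ1 v hvV e (fun w hw hwv => he2 w (Finset.mem_union_right _ hw) hwv), add_zero] at h3
      change p ^ (m - 1) • χ (prin e) = 0
      rw [← h3]
      exact he3
    refine ⟨?_, fun hdiv => ⟨?_, ?_⟩⟩
    · classical
      set D0 : Dv K := Finsupp.mapRange (fun n : ℤ => n / p) (by simp)
        (Finsupp.filter (fun v => v ∉ T ∪ V) (prin b)) with hD0
      refine mem_NQ.2 ⟨b, hbQ, -D0, -(Finsupp.filter (fun v => v ∈ T) (prin b)), ?_, ?_⟩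
      · refine neg_mem ?_
        intro v hv
        rw [Finsupp.filter_apply, if_neg fun h : v ∈ T => hv (Set.mem_union_left _ (Finset.mem_coe.2 h))]
      · ext w
        simp only [Finsupp.add_apply, Finsupp.neg_apply, Finsupp.smul_apply,
          Finsupp.filter_apply, hD0, Finsupp.mapRange_apply, Finsupp.finset_sum_apply,
          Finsupp.single_apply, smul_neg, nsmul_eq_mul]
        rw [Finset.sum_ite_eq' V w (fun v => prin b v)]
        by_cases hwV : w ∈ V
        · have hwT : w ∉ T := fun h => hne w h w hwV rfl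
          rw [if_pos hwV, if_neg hwT, if_neg (by simp [hwV])]
          simp
        · rw [if_neg hwV]
          by_cases hwT : w ∈ T
          · rw [if_pos hwT, if_neg (by simp [hwT])]
            simp
          · have h4 : w ∉ T ∪ V := by simp [hwT, hwV]
            rw [if_neg hwT, if_pos h4]
            have h5 := Int.mul_ediv_cancel' (hb3 w h4)
            simp only [neg_zero, add_zero]
            linarith
    · refine mem_Rg.2 ⟨mem_Qg.1 hbQ, fun v hv => ?_⟩
      by_cases hvV : v ∈ V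
      · exact hdiv v hvV
      · exact hb3 v (by simp [hv, hvV])
    · intro v hv
      obtain ⟨c, hc⟩ := hdiv v hv
      obtain ⟨k, hk⟩ := exists_order v c
      obtain ⟨e, he1, he2, he3⟩ := hb2 v (Finset.mem_union_right _ hv)
      obtain ⟨k', hk'1, hk'2⟩ := apx1 (T ∪ V) v k
      have hne' : ∀ w ∈ T ∪ V, w ≠ v → e / k' ^ p ∈ OneAt w := fun w hw hwv =>
        (OneAt w).div_mem (he2 w hw hwv) ((OneAt w).pow_mem (hk'2 w hw hwv) p)
      have hpow : ∀ x : Kˣ, prin (x ^ p) = p • prin x := fun x =>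
        (prinHom (F := K)).map_nsmul p (Additive.ofMul x)
      have he' : e / k' ^ p ∈ UnitAt v := by
        rw [unitAt_iff, prin_div, hpow, Finsupp.sub_apply, Finsupp.smul_apply,
          prin_eq_of_div he1, prin_eq_of_div hk'1, hk, hc, nsmul_eq_mul]
        exact sub_self _
      have h1 : χ (prin (e / k' ^ p)) = 0 := hA.isX.ray _ (fun w hw =>
        hne' w (Finset.mem_union_left _ hw) (hne w hw v hv).symm)
      have h3 := hχ' (e / k' ^ p) (fun w hw => by
        by_cases hwv : w = v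
        · rw [hwv]; exact he'
        · exact OneAt_le w (hne' w (Finset.mem_union_right _ hw) hwv))
      rw [hκ2 v hv _ (fun w hw hwv => hne' w (Finset.mem_union_right _ hw) hwv), h1, zero_add] at h3
      have h4 : p ^ (m - 1) • κ v (Additive.ofMul (e / k' ^ p)) = 0 := by
        rw [← h3, prin_div, hpow, map_sub, map_nsmul, nsmul_sub, ← mul_nsmul',
          ← pow_succ, Nat.sub_add_cancel hm, hX.tor, sub_zero]
        exact he3
      rw [ofMul_div, ofMul_pow, map_sub, map_nsmul, nsmul_sub, ← mul_nsmul', ← pow_succ,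
        Nat.sub_add_cancel hm, (hκ v hv).1, sub_zero, add_eq_of_div (hκ v hv).2.1 he1] at h4
      exact h4

end Pool.Agent.Q248.SH
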