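import Pool.Agent.Q5.SH.Stm
import Pool.Agent.Q248.SH.NEW

/-!
# Project SH, job KV: the character `κ` of a prime `v`

Proof by helper248.
-/

set_option autoImplicit false
set_option linter.unusedSectionVars false

namespace Pool.Agent.Q248.SH

open NumberField IsDedekindDomain Module Pool.Agent.Y18.LC Pool.Agent.Q5.SG Pool.Agent.Q5.SH
open Pool.Agent.Q92.AR (Dv prin Pr Ray RayD art nmD nu Cong Pos frob IsFrobenius Unramified SupF
  prin_mul prin_one prin_inv prin_div prinHom)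

theorem isPrimitiveRoot_map {R k : Type} [CommRing R] [IsDomain R] [Field k] (f : R →+* k) {n : ℕ}
    (hn : (n : k) ≠ 0) {ζ : R} (h : IsPrimitiveRoot ζ n) : IsPrimitiveRoot (f ζ) n := by
  have h0 : n ≠ 0 := by
    rintro rfl
    exact hn Nat.cast_zero
  have hnR : (n : R) ≠ 0 := by
    intro h1
    apply hn
    rw [← map_natCast f, h1, map_zero]
  haveI : NeZero (n : R) := ⟨hnR⟩
  haveI : NeZero (n : k) := ⟨hn⟩
  have h1 := h.isRoot_cyclotomic (Nat.pos_of_ne_zero h0)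
  have h2 : Polynomial.IsRoot (Polynomial.cyclotomic n k) (f ζ) := by
    rw [← Polynomial.map_cyclotomic n f, Polynomial.IsRoot.def, Polynomial.eval_map,
      Polynomial.eval₂_at_apply, Polynomial.IsRoot.def.1 h1, map_zero]
  exact Polynomial.isRoot_cyclotomic_iff.1 h2

section
variable {K : Type} [Field K] [NumberField K]

theorem co_sub (a b : 𝓞 K) : ((a - b : 𝓞 K) : K) = (a : K) - (b : K) :=
  map_sub (algebraMap (𝓞 K) K) a b

theorem co_mul (a b : 𝓞 K) : ((a * b : 𝓞 K) : K) = (a : K) * (b : K) :=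
  map_mul (algebraMap (𝓞 K) K) a b

theorem co_pow (a : 𝓞 K) (n : ℕ) : ((a ^ n : 𝓞 K) : K) = (a : K) ^ n :=
  map_pow (algebraMap (𝓞 K) K) a n

theorem co_one : ((1 : 𝓞 K) : K) = 1 := map_one (algebraMap (𝓞 K) K)

theorem val_lt_one_iff {v : HeightOneSpectrum (𝓞 K)} {a : 𝓞 K} :
    v.valuation K (a : K) < 1 ↔ a ∈ v.asIdeal := by
  have h := v.valuation_lt_one_iff_mem (K := K) a
  exact h

/-- reduction of the units at `v` -/
theorem exists_red {k : Type} [Field k] (f : 𝓞 K →+* k) (v : HeightOneSpectrum (𝓞 K))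
    (hf : ∀ a, f a = 0 ↔ a ∈ v.asIdeal) : ∃ ρ : Kˣ → k,
    (∀ x ∈ UnitAt v, ρ x ≠ 0) ∧ (∀ x ∈ UnitAt v, ∀ y ∈ UnitAt v, ρ (x * y) = ρ x * ρ y) ∧
    ∀ x ∈ UnitAt v, ∀ a : 𝓞 K, v.valuation K ((a : K) - (x : K)) < 1 → ρ x = f a := by
  classical
  have h1 : ∀ x : Kˣ, ∃ a : 𝓞 K, x ∈ UnitAt v → v.valuation K ((a : K) - (x : K)) < 1 := by
    intro x
    by_cases hx : x ∈ UnitAt v
    · obtain ⟨a, ha⟩ := v.exists_valuation_sub_lt_of_integer (K := K) (x := (x : K))
        (mem_UnitAt.1 hx).le 1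
      exact ⟨a, fun _ => ha⟩
    · exact ⟨0, fun h => absurd h hx⟩
  choose a ha using h1
  have h2 : ∀ x ∈ UnitAt v, ∀ b : 𝓞 K, v.valuation K ((b : K) - (x : K)) < 1 → f (a x) = f b := by
    intro x hx b hb
    have h3 : v.valuation K (((a x - b : 𝓞 K)) : K) < 1 := by
      have h4 : ((a x - b : 𝓞 K) : K) = ((a x : K) - (x : K)) - ((b : K) - (x : K)) := by
        rw [co_sub]
        ring
      rw [h4]
      exact lt_of_le_of_lt (Valuation.map_sub _ _ _) (max_lt (ha x hx) hb)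
    have h4 := (hf _).2 (val_lt_one_iff.1 h3)
    rw [map_sub] at h4
    exact sub_eq_zero.1 h4
  refine ⟨fun x => f (a x), fun x hx h0 => ?_, fun x hx y hy => ?_, h2⟩
  · have h3 := val_lt_one_iff.2 ((hf _).1 h0)
    have h4 : (x : K) = (a x : K) - ((a x : K) - (x : K)) := by ring
    have h5 : v.valuation K (x : K) < 1 := by
      rw [h4]
      exact lt_of_le_of_lt (Valuation.map_sub _ _ _) (max_lt h3 (ha x hx))
    rw [mem_UnitAt.1 hx] at h5
    exact lt_irrefl _ h5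
  · change f (a (x * y)) = f (a x) * f (a y)
    rw [← map_mul]
    refine h2 _ ((UnitAt v).mul_mem hx hy) _ ?_
    have h3 : ((a x * a y : 𝓞 K) : K) - ((x * y : Kˣ) : K) =
        (a x : K) * ((a y : K) - (y : K)) + ((a x : K) - (x : K)) * (y : K) := by
      rw [co_mul, Units.val_mul]
      ring
    rw [h3]
    refine lt_of_le_of_lt (Valuation.map_add _ _ _) (max_lt ?_ ?_)
    · rw [map_mul]
      have h4 : v.valuation K (a x : K) ≤ 1 := v.valuation_le_one (K := K) (a x)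
      exact lt_of_le_of_lt (mul_le_of_le_one_left' h4) (ha y hy)
    · rw [map_mul, mem_UnitAt.1 hy, mul_one]
      exact ha x hx

end

theorem kv : S_KV := by
  intro p _ K M _ _ _ _ _ _ m hm ζ hζ A r hr X hX ξ hξ e he g hgζ hgr v hq hpv hXv hun hfr
  classical
  have hp : p.Prime := Fact.out
  obtain ⟨w, hwm, hwv, hw⟩ := hfr
  set q : ℕ := Ideal.absNorm v.asIdeal with hqdef
  letI : Field (𝓞 M ⧸ w) := Ideal.Quotient.field w
  set φ : 𝓞 M →+* 𝓞 M ⧸ w := Ideal.Quotient.mk w with hφ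
  set f : 𝓞 K →+* 𝓞 M ⧸ w := φ.comp (algebraMap (𝓞 K) (𝓞 M)) with hf
  have hf0 : ∀ a, f a = 0 ↔ a ∈ v.asIdeal := by
    intro a
    rw [← hwv, Ideal.mem_comap, hf, RingHom.comp_apply, hφ, Ideal.Quotient.eq_zero_iff_mem]
  have hφf : ∀ (x : 𝓞 M) (y : 𝓞 M), (y : M) = g x → φ y = φ x ^ q := by
    intro x y hy
    obtain ⟨z, hz, hz'⟩ := hw x
    have h1 : z = y - x ^ q := by
      apply RingOfIntegers.ext
      rw [hz', co_sub, co_pow, hy]
    rw [← map_pow, ← sub_eq_zero, ← map_sub, ← h1]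
    exact Ideal.Quotient.eq_zero_iff_mem.2 hz
  -- the values of `f` are fixed by Frobenius
  have hfq : ∀ a, f a ^ q = f a := by
    intro a
    have h1 := hφf (algebraMap (𝓞 K) (𝓞 M) a) (algebraMap (𝓞 K) (𝓞 M) a) (by
      change algebraMap K M (a : K) = g (algebraMap K M (a : K))
      rw [AlgEquiv.commutes])
    exact h1.symm
  have hq1 : 1 < q := hq.one_lt
  have hfq1 : ∀ a, f a ≠ 0 → f a ^ (q - 1) = 1 := by
    intro a ha
    have h1 := hfq a
    have h2 : f a ^ (q - 1) * f a = 1 * f a := by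
      rw [← pow_succ, Nat.sub_add_cancel hq1.le, h1, one_mul]
    exact mul_right_cancel₀ ha h2
  -- the characteristic
  have hpk : (p : 𝓞 M ⧸ w) ≠ 0 := by
    intro h
    apply hpv
    rw [← hf0, map_natCast]
    exact h
  have hpmk : ((p ^ m : ℕ) : 𝓞 M ⧸ w) ≠ 0 := by
    rw [Nat.cast_pow]
    exact pow_ne_zero _ hpk
  -- the root of unity
  set Z : 𝓞 M := (hζ.toInteger : 𝓞 M) with hZ
  have hZζ : (Z : M) = ζ := rfl
  have hZp : IsPrimitiveRoot Z (p ^ m) := hζ.toInteger_isPrimitiveRoot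
  have hz : IsPrimitiveRoot (φ Z) (p ^ m) := isPrimitiveRoot_map φ hpmk hZp
  set z : 𝓞 M ⧸ w := φ Z with hzdef
  have hz0 : z ≠ 0 := hz.ne_zero (pow_pos hp.pos m).ne'
  have hzq : z ^ (q - 1) = 1 := by
    have h1 := hφf Z Z (by rw [hZζ, hgζ])
    have h2 : z ^ (q - 1) * z = 1 * z := by
      rw [← pow_succ, Nat.sub_add_cancel hq1.le, one_mul]
      exact h1.symm
    exact mul_right_cancel₀ hz0 h2
  have hdvd : p ^ m ∣ q - 1 := hz.dvd_of_pow_eq_one _ hzq
  refine ⟨hdvd, ?_⟩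
  obtain ⟨t, ht⟩ := hdvd
  obtain ⟨ρ, hρ0, hρm, hρ⟩ := exists_red f v hf0
  have hρ1 : ∀ x ∈ UnitAt v, ρ x ^ (q - 1) = 1 := by
    intro x hx
    obtain ⟨a, ha⟩ := v.exists_valuation_sub_lt_of_integer (K := K) (x := (x : K))
        (mem_UnitAt.1 hx).le 1
    have h1 := hρ x hx a ha
    rw [h1]
    exact hfq1 a (by rw [← h1]; exact hρ0 x hx)
  have hj : ∀ x : Kˣ, ∃ j : ℕ, x ∈ UnitAt v → z ^ j = ρ x ^ t := by
    intro x
    by_cases hx : x ∈ UnitAt v
    · obtain ⟨j, -, hj⟩ := hz.eq_pow_of_pow_eq_one (ξ := ρ x ^ t) (by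
        rw [← pow_mul, mul_comm, ← ht]
        exact hρ1 x hx)
      exact ⟨j, fun _ => hj⟩
    · exact ⟨0, fun h => absurd h hx⟩
  choose j hj using hj
  have hξz : ∀ a b : ℕ, z ^ a = z ^ b ↔ ξ ^ a = ξ ^ b := by
    intro a b
    have hzu : IsPrimitiveRoot (Units.mk0 z hz0) (p ^ m) := IsPrimitiveRoot.coe_units_iff.1 hz
    have h1 : z ^ a = z ^ b ↔ (Units.mk0 z hz0) ^ a = (Units.mk0 z hz0) ^ b := by
      rw [Units.ext_iff, Units.val_pow_eq_pow_val, Units.val_pow_eq_pow_val, Units.val_mk0]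
    rw [h1, pow_eq_pow_iff_modEq, pow_eq_pow_iff_modEq, ← hzu.eq_orderOf, ← hξ.eq_orderOf]
  obtain ⟨π, hπ⟩ := exists_order v 1
  have hpr : ∀ x : Kˣ, x * π ^ (-(prin x v)) ∈ UnitAt v := by
    intro x
    have h3 : prin (π ^ (-(prin x v))) = (-(prin x v)) • prin π :=
      (prinHom (F := K)).map_zsmul _ (Additive.ofMul π)
    rw [unitAt_iff, prin_mul, h3, Finsupp.add_apply, Finsupp.smul_apply, hπ, smul_eq_mul]
    ring
  have hjmul : ∀ x ∈ UnitAt v, ∀ y ∈ UnitAt v, ξ ^ j (x * y) = ξ ^ j x * ξ ^ j y := by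
    intro x hx y hy
    rw [← pow_add, ← hξz, pow_add, hj _ ((UnitAt v).mul_mem hx hy), hj _ hx, hj _ hy,
      hρm x hx y hy, mul_pow]
  set κ : Additive Kˣ →+ Additive ℂˣ := AddMonoidHom.mk'
    (fun x => Additive.ofMul (ξ ^ j (x.toMul * π ^ (-(prin x.toMul v))))) (by
      intro x y
      rw [← ofMul_mul, ← hjmul _ (hpr _) _ (hpr _)]
      congr 3
      rw [toMul_add, prin_mul, Finsupp.add_apply, neg_add, zpow_add]
      exact mul_mul_mul_comm _ _ _ _) with hκ
  have hκ1 : ∀ x ∈ UnitAt v, κ (Additive.ofMul x) = Additive.ofMul (ξ ^ j x) := by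
    intro x hx
    change Additive.ofMul (ξ ^ j (x * π ^ (-(prin x v)))) = _
    rw [unitAt_iff.1 hx, neg_zero, zpow_zero, mul_one]
  have hκt : ∀ x, p ^ m • κ x = 0 := by
    intro x
    change p ^ m • Additive.ofMul (ξ ^ _) = 0
    rw [← ofMul_pow, ← pow_mul, mul_comm, pow_mul, hξ.pow_eq_one, one_pow]
    rfl
  refine ⟨κ, hκt, ?_, ?_, ?_⟩
  · intro x hx
    rw [hκ1 x (OneAt_le v hx)]
    have h1 : ρ x = 1 := by
      have h2 := hρ x (OneAt_le v hx) 1 (by
        rw [co_one, Valuation.map_sub_swap]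
        exact mem_OneAt.1 hx)
      rw [h2, map_one]
    have h2 := hj x (OneAt_le v hx)
    rw [h1, one_pow, ← pow_zero z, hξz, pow_zero] at h2
    rw [h2]
    rfl
  · -- a primitive root
    haveI : Fintype (𝓞 K ⧸ v.asIdeal) := Fintype.ofFinite _
    letI : Field (𝓞 K ⧸ v.asIdeal) := Ideal.Quotient.field v.asIdeal
    obtain ⟨γ, hγ⟩ := IsCyclic.exists_generator (α := (𝓞 K ⧸ v.asIdeal)ˣ)
    obtain ⟨a, ha⟩ := Ideal.Quotient.mk_surjective (γ : 𝓞 K ⧸ v.asIdeal)
    have hav : a ∉ v.asIdeal := by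
      intro h
      rw [← Ideal.Quotient.eq_zero_iff_mem, ha] at h
      exact γ.ne_zero h
    have ha0 : (a : K) ≠ 0 := by
      intro h
      apply hav
      have h1 : a = 0 := RingOfIntegers.coe_eq_zero_iff.1 h
      rw [h1]
      exact zero_mem _
    have hau : Units.mk0 (a : K) ha0 ∈ UnitAt v := by
      rw [mem_UnitAt, Units.val_mk0]
      exact v.valuation_eq_one_iff_notMem.2 hav
    refine ⟨Units.mk0 (a : K) ha0, hau, ?_⟩
    rw [hκ1 _ hau]
    intro h0
    rw [← ofMul_pow, ← pow_mul] at h0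
    have h1 : ξ ^ (j (Units.mk0 (a : K) ha0) * p ^ (m - 1)) = ξ ^ 0 := by
      rw [pow_zero]
      exact h0
    rw [← hξz, pow_mul, hj _ hau, pow_zero, ← pow_mul] at h1
    have h2 : ρ (Units.mk0 (a : K) ha0) = f a := hρ _ hau a (by
      rw [Units.val_mk0, sub_self, map_zero]
      exact zero_lt_one)
    rw [h2, ← map_pow, ← map_one f, ← sub_eq_zero, ← map_sub, hf0,
      ← Ideal.Quotient.eq_zero_iff_mem, map_sub, sub_eq_zero, map_pow, map_one, ha] at h1
    have h3 : γ ^ (t * p ^ (m - 1)) = 1 := by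
      apply Units.ext
      rw [Units.val_pow_eq_pow_val, h1, Units.val_one]
    have h4 : orderOf γ = q - 1 := by
      rw [orderOf_eq_card_of_forall_mem_zpowers hγ, Nat.card_units]
      rfl
    have h5 := orderOf_dvd_of_pow_eq_one h3
    rw [h4, ht] at h5
    have h6 : p ^ m = p ^ (m - 1) * p := by rw [← pow_succ, Nat.sub_add_cancel hm]
    have ht0 : 0 < t := by
      rcases Nat.eq_zero_or_pos t with h | h
      · rw [h, mul_zero] at ht
        omega
      · exact h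
    have h7 : 0 < t * p ^ (m - 1) := Nat.mul_pos ht0 (pow_pos hp.pos _)
    have h8 := Nat.le_of_dvd h7 h5
    rw [h6] at h8
    have h9 := hp.two_le
    nlinarith
  · intro b hb
    obtain ⟨x, hx, hxA, k, rfl⟩ := hX b hb
    rw [ofMul_mul, ofMul_pow, map_add, map_add, map_nsmul, map_nsmul, hκt, he, add_zero, add_zero]
    have hxv := hXv x hx
    rw [hκ1 x hxv]
    -- `e x` is a power of `ξ`
    obtain ⟨c, hc⟩ : ∃ c : ℕ, e (Additive.ofMul x) = c • Additive.ofMul ξ := by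
      have h1 := he (Additive.ofMul x)
      have h2 : ((e (Additive.ofMul x)).toMul) ^ p ^ m = 1 := h1
      haveI : NeZero (p ^ m) := ⟨(pow_pos hp.pos m).ne'⟩
      obtain ⟨c, -, hc⟩ := hξ.eq_pow_of_mem_rootsOfUnity (ξ := (e (Additive.ofMul x)).toMul)
        ((mem_rootsOfUnity _ _).2 h2)
      exact ⟨c, by rw [← ofMul_pow, hc]; rfl⟩
    have hgx := hgr x hxA c hc
    rw [hc, ← ofMul_pow]
    congr 1
    rw [← hξz, hj x hxv]
    -- a denominator
    obtain ⟨n, ⟨d, hd⟩, hnd⟩ := v.exists_primeCompl_mul_eq_of_integer (K := K) (x : K)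
      (mem_UnitAt.1 hxv).le
    change (x : K) * (d : K) = (n : K) at hnd
    have hd' : d ∉ v.asIdeal := hd
    have hd0 : (d : K) ≠ 0 := by
      intro h
      apply hd'
      rw [RingOfIntegers.coe_eq_zero_iff.1 h]
      exact zero_mem _
    have hn0 : (n : K) ≠ 0 := by
      rw [← hnd]
      exact mul_ne_zero x.ne_zero hd0
    have hdu : Units.mk0 (d : K) hd0 ∈ UnitAt v := by
      rw [mem_UnitAt, Units.val_mk0]
      exact v.valuation_eq_one_iff_notMem.2 hd'
    have hnx : Units.mk0 (n : K) hn0 = x * Units.mk0 (d : K) hd0 := by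
      apply Units.ext
      rw [Units.val_mul, Units.val_mk0, Units.val_mk0, hnd]
    have hnu : Units.mk0 (n : K) hn0 ∈ UnitAt v := by
      rw [hnx]
      exact (UnitAt v).mul_mem hxv hdu
    have hρd : ρ (Units.mk0 (d : K) hd0) = f d := hρ _ hdu d (by
      rw [Units.val_mk0, sub_self, map_zero]
      exact zero_lt_one)
    have hρn : ρ (Units.mk0 (n : K) hn0) = f n := hρ _ hnu n (by
      rw [Units.val_mk0, sub_self, map_zero]
      exact zero_lt_one)
    have hfn : f n = ρ x * f d := by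
      rw [← hρn, hnx, hρm x hxv _ hdu, hρd]
    have hfd0 : f d ≠ 0 := by
      rw [Ne, hf0]
      exact hd'
    have hpm1 : 1 ≤ p ^ m := pow_pos hp.pos m
    -- the integer `R = d * r x`
    have hRpow : (algebraMap K M (d : K) * r x) ^ p ^ m =
        algebraMap K M ((d ^ (p ^ m - 1) * n : 𝓞 K) : K) := by
      rw [mul_pow, hr x hxA, ← map_pow, ← map_mul]
      congr 1
      rw [co_mul, co_pow, ← hnd]
      calc (d : K) ^ p ^ m * (x : K) = (d : K) ^ (p ^ m - 1 + 1) * (x : K) := by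
            rw [Nat.sub_add_cancel hpm1]
        _ = (d : K) ^ (p ^ m - 1) * ((x : K) * (d : K)) := by
            rw [pow_succ]
            ring
    have hRint : IsIntegral ℤ (algebraMap K M (d : K) * r x) := by
      have h1 : IsIntegral ℤ ((algebraMap K M (d : K) * r x) ^ p ^ m) := by
        rw [hRpow]
        exact (RingOfIntegers.isIntegral_coe (d ^ (p ^ m - 1) * n : 𝓞 K)).algebraMap
      exact h1.of_pow (pow_pos hp.pos m)
    set R : 𝓞 M := ⟨algebraMap K M (d : K) * r x, hRint⟩ with hR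
    have hRM : (R : M) = algebraMap K M (d : K) * r x := rfl
    have hR1 : R ^ p ^ m = algebraMap (𝓞 K) (𝓞 M) (d ^ (p ^ m - 1) * n) := by
      apply RingOfIntegers.ext
      rw [co_pow, hRM, hRpow]
      rfl
    have hR2 : φ R ^ p ^ m = f d ^ (p ^ m - 1) * f n := by
      rw [← map_pow, hR1, ← map_pow, ← map_mul]
      rfl
    have hR0 : φ R ≠ 0 := by
      intro h
      rw [h, zero_pow (pow_pos hp.pos m).ne'] at hR2
      have h1 : f n ≠ 0 := by
        rw [hfn]
        exact mul_ne_zero (hρ0 x hxv) hfd0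
      exact mul_ne_zero (pow_ne_zero _ hfd0) h1 hR2.symm
    have hR3 : z ^ c * φ R = φ R ^ q := by
      have h1 := hφf R (Z ^ c * R) (by
        rw [co_mul, co_pow, hRM, hZζ, map_mul, AlgEquiv.commutes, hgx]
        ring)
      rw [map_mul, map_pow] at h1
      exact h1
    have hR4 : z ^ c = φ R ^ (q - 1) := by
      apply mul_right_cancel₀ hR0
      rw [hR3, ← pow_succ, Nat.sub_add_cancel hq1.le]
    rw [hR4, ht, pow_mul, hR2, hfn]
    have h5 : f d ^ (p ^ m - 1) * (ρ x * f d) = f d ^ p ^ m * ρ x := by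
      calc f d ^ (p ^ m - 1) * (ρ x * f d) = (f d ^ (p ^ m - 1) * f d) * ρ x := by ring
        _ = f d ^ p ^ m * ρ x := by rw [← pow_succ, Nat.sub_add_cancel hpm1]
    rw [h5, mul_pow, ← pow_mul, ← ht, hfq1 d hfd0, one_mul]

end Pool.Agent.Q248.SH
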