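import Pool.Agent.Q5.SH.Stm
import Pool.Agent.Q248.SH.NEW

/-!
# Project SH, job ST: the two steps

Proof by helper248.
-/

set_option autoImplicit false
set_option linter.unusedSectionVars false

namespace Pool.Agent.Q248.SH

open NumberField IsDedekindDomain Module Pool.Agent.Y18.LC Pool.Agent.Q5.SG Pool.Agent.Q5.SH
open Pool.Agent.Q92.AR (Dv prin Pr Ray RayD art nmD nu Cong Pos frob IsFrobenius Unramified SupF
  prin_mul prin_one prin_inv prin_div prinHom)

section
variable {A : Type} [AddCommGroup A]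

/-- multiples of an element of order `p` modulo a subgroup -/
theorem dvd_of_zsmul_mem {p : ℕ} (hp : p.Prime) {N : AddSubgroup A} (hN : ∀ d : A, p • d ∈ N)
    {d : A} (hd : d ∉ N) {n : ℤ} (h : n • d ∈ N) : (p : ℤ) ∣ n := by
  by_contra hn
  have h1 : IsCoprime (p : ℤ) n :=
    (Prime.coprime_iff_not_dvd (Nat.prime_iff_prime_int.1 hp)).2 hn
  obtain ⟨a, b, hab⟩ := h1
  apply hd
  have h2 : d = a • (p • d) + b • (n • d) := by
    rw [← natCast_zsmul, smul_smul, smul_smul, ← add_smul, hab, one_smul]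
  rw [h2]
  exact N.add_mem (N.zsmul_mem (hN d) a) (N.zsmul_mem h b)

/-- a subgroup of big index does not become everything by adding one element -/
theorem exists_notMem_sup {p : ℕ} (hp : p.Prime) {N : AddSubgroup A} (hN : ∀ d : A, p • d ∈ N)
    (hi : p * p ≤ N.index) (d : A) : ∃ d' : A, d' ∉ N ⊔ AddSubgroup.zmultiples d := by
  by_contra hcon
  push Not at hcon
  have h1 : Function.Surjective (fun i : Fin p => (QuotientAddGroup.mk (i.1 • d) : A ⧸ N)) := by
    intro x
    obtain ⟨a, rfl⟩ := QuotientAddGroup.mk_surjective x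
    obtain ⟨n, hn, y, hy, hny⟩ := AddSubgroup.mem_sup.1 (hcon a)
    obtain ⟨z, rfl⟩ := AddSubgroup.mem_zmultiples_iff.1 hy
    have hp0 : (p : ℤ) ≠ 0 := by exact_mod_cast hp.ne_zero
    have hp1 : 0 < (p : ℤ) := by exact_mod_cast hp.pos
    have h2 := Int.emod_nonneg z hp0
    have h3 := Int.emod_lt_of_pos z hp1
    refine ⟨⟨(z % p).toNat, by omega⟩, ?_⟩
    rw [QuotientAddGroup.eq]
    have h4 : ((z % p).toNat : ℤ) = z % p := Int.toNat_of_nonneg h2
    have h5 : -((z % p).toNat • d) + a = n + (z / p) • (p • d) := by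
      rw [← hny, ← natCast_zsmul d, h4, ← natCast_zsmul d p, smul_smul]
      have h6 : z = z % p + z / p * p := by
        have := Int.emod_add_mul_ediv z p
        linarith
      have h7 : z • d = (z % p) • d + (z / p * p) • d := by
        rw [← add_smul, ← h6]
      rw [h7]
      abel
    change -((z % p).toNat • d) + a ∈ N
    rw [h5]
    exact N.add_mem hn (N.zsmul_mem (hN d) _)
  have h2 := Nat.card_le_card_of_surjective _ h1
  have h3 : Nat.card (A ⧸ N) = N.index := rfl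
  rw [h3, Nat.card_fin] at h2
  have h4 := hp.two_le
  nlinarith

end

theorem prime_le_relIndex {G : Type} [CommGroup G] {p : ℕ} (hp : p.Prime) {P R : Subgroup G}
    (hP : ∀ g : G, g ^ p ∈ P) (h0 : P.relIndex R ≠ 0) (h : ¬ R ≤ P) : p ≤ P.relIndex R := by
  obtain ⟨b, hb, hbP⟩ := Set.not_subset.1 h
  set x : R ⧸ P.subgroupOf R := QuotientGroup.mk ⟨b, hb⟩ with hx
  have h1 : x ≠ 1 := by
    intro h2
    rw [hx, QuotientGroup.eq_one_iff, Subgroup.mem_subgroupOf] at h2
    exact hbP h2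
  have h2 : x ^ p = 1 := by
    rw [hx, ← QuotientGroup.mk_pow, QuotientGroup.eq_one_iff, Subgroup.mem_subgroupOf]
    exact hP b
  haveI := Fact.mk hp
  have h3 := orderOf_eq_prime h2 h1
  have h4 : orderOf x ∣ Nat.card (R ⧸ P.subgroupOf R) := orderOf_dvd_natCard x
  rw [h3] at h4
  exact Nat.le_of_dvd (Nat.pos_of_ne_zero h0) h4

section
variable {p : ℕ} [Fact p.Prime] {K : Type} [Field K] [NumberField K]

theorem isX_smul {T : Finset (HeightOneSpectrum (𝓞 K))} {χ : Dv K →+ Additive ℂˣ} {m : ℕ}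
    (hm : 1 ≤ m) (h : IsX T (p ^ m) χ) : IsX T p (p ^ (m - 1) • χ) where
  tor D := by
    change p • (p ^ (m - 1) • χ D) = 0
    rw [← mul_nsmul', ← pow_succ', Nat.sub_add_cancel hm, h.tor]
  zero v hv := by
    change p ^ (m - 1) • χ _ = 0
    rw [h.zero v hv, nsmul_zero]
  ray x hx := by
    change p ^ (m - 1) • χ _ = 0
    rw [h.ray x hx, nsmul_zero]

theorem ramAt_smul {T : Finset (HeightOneSpectrum (𝓞 K))} {χ : Dv K →+ Additive ℂˣ} {m : ℕ}
    {v : HeightOneSpectrum (𝓞 K)} (h : RamAt T χ p m v) : RamAt T (p ^ (m - 1) • χ) p 1 v := by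
  obtain ⟨u, h1, h2, h3⟩ := h
  refine ⟨u, h1, h2, ?_⟩
  rw [Nat.sub_self, pow_zero, one_nsmul]
  exact h3

theorem smul_mem_NQ (S : Set (K →+* ℂ_[p])) (T : Finset (HeightOneSpectrum (𝓞 K)))
    (χ : Dv K →+ Additive ℂˣ) (D : Dv K) : p • D ∈ NQ S T χ :=
  mem_NQ.2 ⟨1, (Qg S T χ).one_mem, D, 0, zero_mem _, by rw [prin_one, zero_add, add_zero]⟩

theorem zsmul_mem_of_single {N : AddSubgroup (Dv K)} {v : HeightOneSpectrum (𝓞 K)} {D : Dv K}
    (h : Finsupp.single v 1 - D ∈ N) (n : ℤ) : Finsupp.single v n - n • D ∈ N := by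
  have h1 := N.zsmul_mem h n
  rw [smul_sub, Finsupp.smul_single, smul_eq_mul, mul_one] at h1
  exact h1

end

theorem st : J_ST := by
  intro hCNT hSEL hEE hNEW p _ hp2 K _ _ hU S hPC hBig m hm hmτ T χ hA B hB
  classical
  have hp : p.Prime := Fact.out
  set χ₁ : Dv K →+ Additive ℂˣ := p ^ (m - 1) • χ with hχ₁
  have hX : IsX T p χ₁ := isX_smul hm hA.isX
  obtain ⟨hr0, hr⟩ := hCNT p hp2 K hU S hPC hBig T χ₁ hX (fun v hv => ramAt_smul (hA.ram v hv)) hA.np
  have hpN : ∀ D : Dv K, p • D ∈ NQ S T χ₁ := smul_mem_NQ S T χ₁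
  have hNtop : (NQ S T χ₁).index ≠ 1 := by
    have h1 : 1 ≤ (PW K p).relIndex (Rg S T χ₁) := Nat.one_le_iff_ne_zero.2 hr0
    have h2 := hp.two_le
    nlinarith
  obtain ⟨D, hD⟩ : ∃ D : Dv K, D ∉ NQ S T χ₁ := by
    by_contra hcon
    push Not at hcon
    exact hNtop (AddSubgroup.index_eq_one.2 ((AddSubgroup.eq_top_iff' _).2 hcon))
  by_cases hle : Rg S T χ₁ ≤ PW K p
  · -- the first step
    obtain ⟨v, hvB, hvT, hv1, hv2, hv3, hvD, κ, hκ1, hκ2, hκ3, hκ4⟩ := hSEL p hp2 K hU S hPC m hm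
      hmτ T χ₁ hX hA.np 0 (fun x => by simp) D B hB
    obtain ⟨χ', hA', hχ'⟩ := hNEW p K S m hm T {v} χ hA (Finset.disjoint_singleton_right.2 hvT)
      (fun w hw => by rw [Finset.mem_singleton.1 hw]; exact ⟨hv1, hv2, hv3⟩) (fun _ => κ)
      (fun w hw => by rw [Finset.mem_singleton.1 hw]; exact ⟨hκ1, hκ2, hκ3⟩)
      (fun b hb => by
        rw [Finset.sum_singleton, hκ4 b hb]
        rfl)
    refine ⟨T ∪ {v}, χ', hA', ⟨v, by simp⟩, fun w hw => ?_, fun _ b hb => ?_, fun h => absurd hle h⟩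
    · rcases Finset.mem_union.1 hw with h | h
      · exact Or.inl h
      · rw [Finset.mem_singleton.1 h]
        exact Or.inr hvB
    · obtain ⟨h1, h2⟩ := hχ' b hb
      rw [Finset.sum_singleton] at h1
      have h3 := zsmul_mem_of_single hvD (prin b v)
      have h4 : prin b v • D ∈ NQ S T χ₁ := by
        have h5 := (NQ S T χ₁).sub_mem h1 h3
        rwa [sub_sub_cancel] at h5
      have h5 := dvd_of_zsmul_mem hp hpN hD h4
      exact hle (h2 fun w hw => by rw [Finset.mem_singleton.1 hw]; exact h5).1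
  · -- the second step
    have hrp : p ≤ (PW K p).relIndex (Rg S T χ₁) :=
      prime_le_relIndex hp (fun g => ⟨g, rfl⟩) hr0 hle
    obtain ⟨D', hD'⟩ := exists_notMem_sup hp hpN ((Nat.mul_le_mul_left p hrp).trans hr) D
    have hDD' : ∀ x y : ℤ, x • D + y • D' ∈ NQ S T χ₁ → (p : ℤ) ∣ x ∧ (p : ℤ) ∣ y := by
      intro x y hxy
      have hy : (p : ℤ) ∣ y := by
        refine dvd_of_zsmul_mem hp (N := NQ S T χ₁ ⊔ AddSubgroup.zmultiples D)
          (fun d => (le_sup_left : NQ S T χ₁ ≤ _) (hpN d)) hD' ?_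
        have h1 : y • D' = (x • D + y • D') - x • D := by abel
        rw [h1]
        exact sub_mem ((le_sup_left : NQ S T χ₁ ≤ _) hxy)
          ((le_sup_right : AddSubgroup.zmultiples D ≤ _)
            (AddSubgroup.zsmul_mem_zmultiples D x))
      refine ⟨dvd_of_zsmul_mem hp hpN hD ?_, hy⟩
      obtain ⟨c, rfl⟩ := hy
      have h1 : x • D = (x • D + ((p : ℤ) * c) • D') - c • (p • D') := by
        rw [← natCast_zsmul, smul_smul, mul_comm c]
        abel
      rw [h1]
      exact sub_mem hxy (AddSubgroup.zsmul_mem _ (hpN D') c)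
    obtain ⟨b₀, hb₀, hb₀P⟩ := Set.not_subset.1 hle
    obtain ⟨e, he1, he2⟩ := hEE p hp2 K hU m hm b₀ hb₀P
    obtain ⟨v, hvB, hvT, hv1, hv2, hv3, hvD, κ, hκ1, hκ2, hκ3, hκ4⟩ := hSEL p hp2 K hU S hPC m hm
      hmτ T χ₁ hX hA.np e he1 D B hB
    obtain ⟨v', hvB', hvT', hv1', hv2', hv3', hvD', κ', hκ1', hκ2', hκ3', hκ4'⟩ := hSEL p hp2 K hU S
      hPC m hm hmτ T χ₁ hX hA.np e he1 D' (insert v B) (hB.insert v)
    have hvv' : v' ≠ v := fun h => hvB' (h ▸ Set.mem_insert v B)
    have hvB'' : v' ∉ B := fun h => hvB' (Set.mem_insert_of_mem v h)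
    set κf : HeightOneSpectrum (𝓞 K) → Additive Kˣ →+ Additive ℂˣ :=
      fun w => if w = v then κ else -κ' with hκf
    have hκfv : κf v = κ := by rw [hκf]; exact if_pos rfl
    have hκfv' : κf v' = -κ' := by rw [hκf]; exact if_neg hvv'
    have hV : ∀ w ∈ ({v, v'} : Finset (HeightOneSpectrum (𝓞 K))), w = v ∨ w = v' := fun w hw => by
      simpa using hw
    obtain ⟨χ', hA', hχ'⟩ := hNEW p K S m hm T {v, v'} χ hA
      (by
        rw [Finset.disjoint_left]
        intro w hw hw'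
        rcases hV w hw' with rfl | rfl
        · exact hvT hw
        · exact hvT' hw)
      (fun w hw => by
        rcases hV w hw with rfl | rfl
        · exact ⟨hv1, hv2, hv3⟩
        · exact ⟨hv1', hv2', hv3'⟩) κf
      (fun w hw => by
        rcases hV w hw with rfl | rfl
        · rw [hκfv]
          exact ⟨hκ1, hκ2, hκ3⟩
        · rw [hκfv']
          refine ⟨fun x => ?_, fun x hx => ?_, ?_⟩
          · rw [AddMonoidHom.neg_apply, neg_nsmul, hκ1', neg_zero]
          · rw [AddMonoidHom.neg_apply, hκ2' x hx, neg_zero]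
          · obtain ⟨u, hu, hu'⟩ := hκ3'
            refine ⟨u, hu, ?_⟩
            rw [AddMonoidHom.neg_apply, neg_nsmul]
            exact neg_ne_zero.2 hu')
      (fun b hb => by
        rw [Finset.sum_pair hvv'.symm, hκfv, hκfv', AddMonoidHom.neg_apply, hκ4 b hb, hκ4' b hb,
          add_neg_cancel])
    have hkey : ∀ b ∈ Rg S (T ∪ {v, v'}) (p ^ (m - 1) • χ'), b ∈ Rg S T χ₁ ∧
        p ^ (m - 1) • κ (Additive.ofMul b) = 0 := by
      intro b hb
      obtain ⟨h1, h2⟩ := hχ' b hb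
      rw [Finset.sum_pair hvv'.symm] at h1
      have h3 := zsmul_mem_of_single hvD (prin b v)
      have h3' := zsmul_mem_of_single hvD' (prin b v')
      have h4 : prin b v • D + prin b v' • D' ∈ NQ S T χ₁ := by
        have h5 := (NQ S T χ₁).sub_mem h1 ((NQ S T χ₁).add_mem h3 h3')
        have h6 : (Finsupp.single v (prin b v) + Finsupp.single v' (prin b v') : Dv K) -
          (Finsupp.single v (prin b v) - prin b v • D +
            (Finsupp.single v' (prin b v') - prin b v' • D')) =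
            prin b v • D + prin b v' • D' := by abel
        rwa [h6] at h5
      obtain ⟨h5, h5'⟩ := hDD' _ _ h4
      obtain ⟨h6, h7⟩ := h2 fun w hw => by
        rcases hV w hw with rfl | rfl
        · exact h5
        · exact h5'
      refine ⟨h6, ?_⟩
      have h8 := h7 v (by simp)
      rwa [hκfv] at h8
    refine ⟨T ∪ {v, v'}, χ', hA', ⟨v, by simp⟩, fun w hw => ?_, fun h => absurd h hle, fun _ => ?_⟩
    · rcases Finset.mem_union.1 hw with h | h
      · exact Or.inl h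
      · rcases hV w h with rfl | rfl
        · exact Or.inr hvB
        · exact Or.inr hvB''
    · set R' := Rg S (T ∪ {v, v'}) (p ^ (m - 1) • χ') with hR'
      have hRR : R' ≤ Rg S T χ₁ := fun b hb => (hkey b hb).1
      rw [← Subgroup.relIndex_sup_right R' (PW K p), ← Subgroup.relIndex_sup_right (Rg S T χ₁) (PW K p)]
      rw [← Subgroup.relIndex_sup_right (Rg S T χ₁) (PW K p)] at hr0
      have h1 : R' ⊔ PW K p ≤ Rg S T χ₁ ⊔ PW K p := sup_le_sup_right hRR _
      have h2 := Subgroup.relIndex_mul_relIndex (PW K p) (R' ⊔ PW K p) (Rg S T χ₁ ⊔ PW K p)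
        le_sup_right h1
      have h3 : (R' ⊔ PW K p).relIndex (Rg S T χ₁ ⊔ PW K p) ≠ 1 := by
        intro h4
        rw [Subgroup.relIndex_eq_one] at h4
        have h5 : b₀ ∈ R' ⊔ PW K p := h4 ((le_sup_left : Rg S T χ₁ ≤ _) hb₀)
        obtain ⟨b, hb, y, ⟨k, rfl⟩, hbk⟩ := Subgroup.mem_sup.1 h5
        have h6 := (hkey b hb).2
        have hkk : (powMonoidHom p : Kˣ →* Kˣ) k = k ^ p := rfl
        rw [hkk] at hbk
        have h7 : p ^ (m - 1) • κ (Additive.ofMul b₀) = 0 := by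
          rw [← hbk, ofMul_mul, ofMul_pow, map_add, map_nsmul, nsmul_add, h6, zero_add,
            ← mul_nsmul', ← pow_succ, Nat.sub_add_cancel hm, hκ1]
        have h8 : b₀ ^ p ^ (m - 1) ∈ BT T (p ^ m) := by
          intro w hw
          have h9 : prin (b₀ ^ p ^ (m - 1)) = p ^ (m - 1) • prin b₀ :=
            (prinHom (F := K)).map_nsmul (p ^ (m - 1)) (Additive.ofMul b₀)
          have h10 := (mem_Rg.1 hb₀).2 w hw
          rw [h9, Finsupp.smul_apply, nsmul_eq_mul]
          obtain ⟨c, hc⟩ := h10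
          rw [hc]
          refine ⟨c, ?_⟩
          have h11 : (p : ℤ) ^ m = p ^ (m - 1) * p := by rw [← pow_succ, Nat.sub_add_cancel hm]
          push_cast
          rw [h11]
          ring
        have h9 := hκ4 _ h8
        rw [ofMul_pow, map_nsmul, map_nsmul, h7] at h9
        exact he2 h9.symm
      have h4 : (R' ⊔ PW K p).relIndex (Rg S T χ₁ ⊔ PW K p) ≠ 0 := fun h => hr0 (by rw [← h2, h, mul_zero])
      have h5 : (PW K p).relIndex (R' ⊔ PW K p) ≠ 0 := fun h => hr0 (by rw [← h2, h, zero_mul])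
      rw [← h2]
      have h6 : 2 ≤ (R' ⊔ PW K p).relIndex (Rg S T χ₁ ⊔ PW K p) := by omega
      have h7 : 1 ≤ (PW K p).relIndex (R' ⊔ PW K p) := Nat.one_le_iff_ne_zero.2 h5
      nlinarith

end Pool.Agent.Q248.SH
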